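import Pool.Agent.ZES.StmtsF

/-!
# Squad ZES, row NVT (MP_160b6c_nt): the standard theta functions of even order have no common zero
-/

set_option autoImplicit false

namespace Pool.Agent.ZES.H51

open scoped BigOperators
open Pool.Agent.THS

theorem nvt (h1 : SpnStmt) (h2 : RmlStmt) : NvtStmt := by
  intro g τ hτ e he he2 x
  obtain ⟨F, hF, hFx⟩ := (h2 g τ hτ).2 e he he2 x
  obtain ⟨c, hc⟩ := h1 g τ hτ e (by omega) F hF
  by_contra h
  push Not at h
  apply hFx
  rw [hc x]
  exact Finset.sum_eq_zero fun j _ => by rw [h, mul_zero]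

end Pool.Agent.ZES.H51
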